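import Pool.Agent.H35.RcBP

/-!
# `k`-clique is hard for circuits of bounded individual degree

Every non-monotone circuit (conjunctions of two gates, disjunctions of any number of gates, input
gates = arbitrary tests of the edges touching a small set of vertices) that decides whether a graph
on `n` vertices has a `k`-clique, and that reads every edge at most `r` times on average along its
proof trees, has size at least `n ^ (c_r * k) / (k + 1) ^ k` with `c_r = 2 ^ (-(14 * r + 20))`.
This remains true when the circuit only has to separate the graphs with a `k`-clique from those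
without an `l`-clique, `k - l ≤ (k - 1) / 2 ^ (4 * r + 4)`.

The definitions are in `Pool.Agent.H35.RcDefs`; `Pool.Agent.H35.RcBP` contains the consequence for
nondeterministic branching programs (`Pool.H35.Rc.bp_bound`).
-/

namespace Pool.Agent.Results.MP_ba3460_lc.BoundedReadCircuits

open Pool.H35.Rc

theorem result :
    ∀ (r k l t n : ℕ), 1 ≤ r → 2 ≤ l → l ≤ k → 2 ^ (4 * r + 4) * (k - l) ≤ k - 1 →
      (t ≤ 1 ∨ t * (r * 2 ^ (8 * r + 9)) ≤ k) →
      ∀ (G : Type) [Fintype G] (C : Circuit (Edge n) G),
        C.Local t → C.AvgDegreeLE r →
        (∀ x : Finset (Edge n), HasClique k x → C.Holds x C.out) →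
        (∀ x : Finset (Edge n), C.Holds x C.out → HasClique l x) →
        n ^ k ≤ ((k + 1) ^ k * Fintype.card G) ^ (2 ^ (14 * r + 20)) := by
  intro r k l t n hr hl hlk hgap ht G _ C hloc hdeg hyes hno
  obtain ⟨d, hd, hsum⟩ := hdeg
  exact circuit_bound C d hd k l r t hr hl hlk hgap ht hloc hsum hyes hno

end Pool.Agent.Results.MP_ba3460_lc.BoundedReadCircuits
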